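import Pool.Agent.H17.CFI5
import Pool.Agent.H17.WL

set_option autoImplicit false

namespace Pool.Agent.Results.MP_493565_co.Counter

open Pool.Agent.H17 Pool.Agent.H17.WL Pool.Agent.H17.CFI

/-- the first round after which one more round splits no colour class of `k`-tuples -/
noncomputable def stab {V C : Type} [Fintype V] (k : ℕ) (G : SimpleGraph V) (c : V → C) : ℕ :=
  sInf {t | ∀ α β, wl k G c t α = wl k G c t β → wl k G c (t + 1) α = wl k G c (t + 1) β}

/-- the colour of the vertex `u`: the stable colouring, pushed down from `k`-tuples to `1`-tuples -/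
noncomputable def vcol {V C : Type} [Fintype V] (k : ℕ) (G : SimpleGraph V) (c : V → C) (u : V) :
    Nest (Col k C (stab k G c)) (k - 1) :=
  down (wl k G c (stab k G c)) (k - 1) fun _ => u

/-- `k`-dim WL refines the coloured graph `(G, c)` to its orbits -/
def Refines {V C : Type} [Fintype V] (k : ℕ) (G : SimpleGraph V) (c : V → C) : Prop :=
  ∀ u w, vcol k G c u = vcol k G c w ↔ ∃ π : G ≃g G, (∀ x, c (π x) = c x) ∧ π u = w

open Classical in
/-- `v` gets the new colour `none`, all other vertices keep their colour -/
noncomputable def indiv {V C : Type} (c : V → C) (v : V) (w : V) : Option C :=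
  if w = v then none else some (c w)

theorem result : ∀ k : ℕ, 1 ≤ k → ∃ (V C : Type) (_ : Fintype V) (G : SimpleGraph V) (c : V → C)
    (v : V), Refines k G c ∧ ¬ Refines k G (indiv c v) := by
  intro k hk
  let this : Fintype (W (k + 2)) := Fintype.ofFinite _
  refine ⟨W (k + 2), _, this, GW _, orb, mm _, fun u w => ⟨fun h => ?_, ?_⟩, fun h => ?_⟩
  · obtain ⟨π, h1, h2⟩ := orb_eq (extract _ _ _ hk _ (by omega) _ _ h)
    exact ⟨π, orb_good h1, h2⟩
  · rintro ⟨π, h1, rfl⟩
    exact auto _ _ _ π h1 _ (by omega) u
  · obtain ⟨π, h1, h2⟩ := (h (hub _ false) (hub _ true)).1 (game _ _ (E1 k) (fun α β e => by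
      obtain ⟨e1, e2⟩ := e1_iso e
      refine ⟨e1, fun i => ?_⟩
      unfold indiv
      by_cases hi : α i = mm _
      · rw [if_pos hi, if_pos ((e2 i).1.1 hi)]
      · rw [if_neg hi, if_neg fun e => hi ((e2 i).1.2 e), (e2 i).2]) (fun α β e => e1_step e) _ _ (by omega) _ _ (e1_init k))
    have h3 : π (mm _) = mm _ := by
      have := h1 (mm _)
      unfold indiv at this
      by_contra hc
      simp [hc] at this
    refine no_aut (by omega) π (fun x => ?_) h3 h2
    by_cases hx : x = mm _
    · rw [hx, h3]
    · have := h1 x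
      unfold indiv at this
      rw [if_neg hx, if_neg fun e => hx (π.injective (e.trans h3.symm))] at this
      exact Option.some.inj this

end Pool.Agent.Results.MP_493565_co.Counter
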